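import Pool.Agent.H32.CH.Targets

/-! MP_aaa807_co, board `ch_modules`: [CR] a cycle minus a vertex is connected -/

set_option autoImplicit false
set_option linter.unusedSectionVars false

namespace Pool.Agent.H20.CH.CR

open Finset Pool.Agent.H32.CH
open scoped Classical

theorem pf_CR (h1 : T_HS) : T_CR := by
  intro V _ G C z hC hdg hz
  obtain ⟨u, w, huw, huC, hwC, hzu, hzw, honly⟩ := dg_two (hdg z hz)
  have huz : u ≠ z := fun h => G.loopless.irrefl z (h ▸ hzu)
  have hwz : w ≠ z := fun h => G.loopless.irrefl z (h ▸ hzw)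
  have hdD : ∀ x ∈ C.erase z, dg G (C.erase z) x + (if x = u then 1 else 0) +
      (if x = w then 1 else 0) = 2 := by
    intro x hx
    obtain ⟨hxz, hxC⟩ := mem_erase.1 hx
    by_cases hadj : G.Adj x z
    · have h2 := dg_erase_adj hz hadj
      rw [hdg x hxC] at h2
      rcases honly x hxC hadj.symm with h | h
      · subst h
        rw [if_pos rfl, if_neg huw]
        omega
      · subst h
        rw [if_neg (Ne.symm huw), if_pos rfl]
        omega
    · have hxu : x ≠ u := fun h => hadj (h ▸ hzu.symm)
      have hxw : x ≠ w := fun h => hadj (h ▸ hzw.symm)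
      rw [if_neg hxu, if_neg hxw, dg_erase_not hadj, hdg x hxC]
  have key : ∀ X, X ⊆ C.erase z → X.Nonempty →
      (∀ x ∈ X, ∀ y ∈ C.erase z, G.Adj x y → y ∈ X) → u ∈ X := by
    intro X hX hne hcl
    have hsum : ∑ x ∈ X, dg G X x + (if u ∈ X then 1 else 0) + (if w ∈ X then 1 else 0) =
        2 * X.card := by
      have h3 : ∀ x ∈ X, dg G X x + (if x = u then 1 else 0) + (if x = w then 1 else 0) = 2 := by
        intro x hx
        have h4 : dg G X x = dg G (C.erase z) x := by
          unfold dg nb
          congr 1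
          ext y
          simp only [mem_filter]
          constructor
          · rintro ⟨h5, h6⟩
            exact ⟨hX h5, h6⟩
          · rintro ⟨h5, h6⟩
            exact ⟨hcl x hx y h5 h6, h6⟩
        rw [h4]
        exact hdD x (hX hx)
      have h5 := Finset.sum_congr rfl h3
      rw [Finset.sum_add_distrib, Finset.sum_add_distrib, Finset.sum_ite_eq', Finset.sum_ite_eq',
        Finset.sum_const, smul_eq_mul] at h5
      omega
    have hev : Even (∑ x ∈ X, dg G X x) := h1 V G X
    by_contra huX
    have hwX : w ∉ X := by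
      intro hwX
      rw [if_neg huX, if_pos hwX] at hsum
      obtain ⟨r, hr⟩ := hev
      omega
    have hXC : X = C := by
      refine hC.2 X (hX.trans (erase_subset _ _)) hne ?_
      intro x hx y hy hxy
      by_cases hyz : y = z
      · subst hyz
        rcases honly x (mem_of_mem_erase (hX hx)) hxy.symm with h | h
        · exact absurd (h ▸ hx) huX
        · exact absurd (h ▸ hx) hwX
      · exact hcl x hx y (mem_erase.2 ⟨hyz, hy⟩) hxy
    have hzX : z ∈ X := by
      rw [hXC]
      exact hz
    exact (mem_erase.1 (hX hzX)).1 rfl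
  refine ⟨⟨u, mem_erase.2 ⟨huz, huC⟩⟩, ?_⟩
  intro X hX hne hcl
  by_contra hne2
  have hu := key X hX hne hcl
  have hdiff : (C.erase z \ X).Nonempty := by
    rw [sdiff_nonempty]
    intro h
    exact hne2 (hX.antisymm h)
  have hu2 := key (C.erase z \ X) sdiff_subset hdiff (by
    intro x hx y hy hxy
    rw [mem_sdiff] at hx ⊢
    exact ⟨hy, fun hyX => hx.2 (hcl y hyX x hx.1 hxy.symm)⟩)
  exact (mem_sdiff.1 hu2).2 hu

end Pool.Agent.H20.CH.CR
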