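import Pool.Agent.H32.CH.Targets

/-! MP_aaa807_co, board `ch_modules`: [E2] the exchange keeps an extremal set extremal -/

set_option autoImplicit false
set_option linter.unusedSectionVars false

namespace Pool.Agent.H20.CH.E2

open Finset Pool.Agent.H32.CH
open scoped Classical

theorem pf_E2 (h1 : T_M1) (h2 : T_M2) : T_E2 := by
  intro V _ G A z b hD hE hz hb hzb
  obtain ⟨hzA, hz2⟩ := hz
  obtain ⟨hbA, hb0⟩ := hb
  obtain ⟨_, hmin1⟩ := (h2 V G A hD hE.1).1 z hzA hz2
  have hb1 : b ∉ A.erase z := fun h => hbA (mem_of_mem_erase h)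
  have hle := (h1 V G (A.erase z) hD hmin1).2 b hb1
  have hge : dg G (A.erase z)ᶜ b = dg G Aᶜ b + 1 := by
    rw [compl_erase']
    exact dg_insert_adj (by simpa using hzA) hzb.symm
  have heq : dg G (A.erase z)ᶜ b = 2 := by omega
  obtain ⟨_, hmin2⟩ := (h2 V G (A.erase z) hD hmin1).2 b hb1 heq
  refine ⟨hmin2, fun A' hA' => ?_⟩
  rw [card_insert_of_notMem hb1, card_erase_add_one hzA]
  exact hE.2 A' hA'

end Pool.Agent.H20.CH.E2
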