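import Pool.Agent.H32.CH.Targets

/-! MP_aaa807_co, board `ch_modules`: [FC] components after the exchange -/

set_option autoImplicit false
set_option linter.unusedSectionVars false

namespace Pool.Agent.H20.CH.FC

open Finset Pool.Agent.H32.CH
open scoped Classical

theorem pf_FC (h0 : T_CR) (h3 : T_DC) (h5 : T_CU) : T_FC := by
  intro V _ G A Z z b hP hz hb honly
  obtain ⟨hcomp, hdeg, _⟩ := hP
  obtain ⟨hZA, hZc, hZcl⟩ := hcomp
  constructor
  · refine ⟨?_, ?_, ?_⟩
    · intro x hx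
      obtain ⟨hxz, hxZ⟩ := mem_erase.1 hx
      exact mem_insert_of_mem (mem_erase.2 ⟨hxz, hZA hxZ⟩)
    · refine h0 V G Z z hZc (fun x hx => ?_) hz
      rw [← h3 V G A Z x ⟨hZA, hZc, hZcl⟩ hx]
      exact hdeg x hx
    · intro x hx y hy hxy
      obtain ⟨hxz, hxZ⟩ := mem_erase.1 hx
      rcases mem_insert.1 hy with h | h
      · subst h
        exact absurd (honly x hxZ hxy.symm) hxz
      · obtain ⟨hyz, hyA⟩ := mem_erase.1 h
        exact mem_erase.2 ⟨hyz, hZcl x hxZ y hyA hxy⟩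
  · intro C hC hCZ hCb
    obtain ⟨hCA, hCc, hCcl⟩ := hC
    have hzA : z ∈ A := hZA hz
    have hzC : z ∉ C := fun h =>
      hCZ (h5 V G A C Z z ⟨hCA, hCc, hCcl⟩ ⟨hZA, hZc, hZcl⟩ h hz)
    refine ⟨⟨?_, hCc, ?_⟩, ?_⟩
    · intro x hx
      exact mem_insert_of_mem (mem_erase.2 ⟨fun h => hzC (h ▸ hx), hCA hx⟩)
    · intro x hx y hy hxy
      rcases mem_insert.1 hy with h | h
      · subst h
        exact absurd hxy.symm (hCb x hx)
      · exact hCcl x hx y (mem_of_mem_erase h) hxy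
    · intro x hx
      have hxb : ¬ G.Adj x b := fun h => hCb x hx h.symm
      have hxz : ¬ G.Adj x z := fun h => hzC (hCcl x hx z hzA h)
      rw [dg_insert_not hxb, dg_erase_not hxz]

end Pool.Agent.H20.CH.FC
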